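import Pool.Agent.helper22.GS.Spec

set_option autoImplicit false

namespace Pool.Agent.GS

open Module

theorem DD_dt {F K ι : Type} [Field F] [Field K] [Algebra F K]
    [FiniteDimensional F K] [Fintype ι] [DecidableEq ι] (β : Basis ι F K) (α : K) :
    dt (bf F K α) β = Algebra.norm F α⁻¹ * dt (bf F K 1) β := by
  have e : Matrix.of (fun i j => bf F K α (β i) (β j)) =
      (Algebra.leftMulMatrix β α⁻¹).transpose * Matrix.of (fun i j => bf F K 1 (β i) (β j)) := by
    ext i j
    rw [Matrix.mul_apply]
    simp only [Matrix.transpose_apply, Matrix.of_apply, bf_apply, inv_one, one_mul,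
      Algebra.leftMulMatrix_eq_repr_mul]
    have h : α⁻¹ * β i = ∑ k, β.repr (α⁻¹ * β i) k • β k := (β.sum_repr (α⁻¹ * β i)).symm
    conv_lhs => rw [h]
    rw [Finset.sum_mul, map_sum]
    refine Finset.sum_congr rfl fun k _ => ?_
    rw [smul_mul_assoc, map_smul, smul_eq_mul]
  unfold dt
  rw [e, Matrix.det_mul, Matrix.det_transpose, ← Algebra.norm_eq_matrix_det]

theorem DD_one {F K ι : Type} [Field F] [Field K] [Algebra F K] [Finite K]
    [FiniteDimensional F K] [Fintype ι] [DecidableEq ι] (β : Basis ι F K) :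
    dt (bf F K 1) β ≠ 0 := by
  have : Finite F := Finite.of_injective _ (algebraMap F K).injective
  have h1 : dt (bf F K 1) β = Algebra.discr F β := by
    rw [Algebra.discr_def]
    unfold dt
    congr 1
    ext i j
    simp only [Matrix.of_apply, bf_apply, inv_one, one_mul, Algebra.traceMatrix_apply,
      Algebra.traceForm_apply]
  rw [h1]
  exact Algebra.discr_not_zero_of_basis F β

theorem DD_sq {F K : Type} [Field F] [Field K] [Algebra F K] [Finite K]
    [FiniteDimensional F K] (hF : ringChar F ≠ 2) (γ : K) (hγ : γ ≠ 0) :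
    IsSquare (Algebra.norm F γ) ↔ IsSquare γ := by
  have hfF : Finite F := Finite.of_injective _ (algebraMap F K).injective
  let _ : Fintype F := Fintype.ofFinite F
  let _ : Fintype K := Fintype.ofFinite K
  have hK : ringChar K ≠ 2 := by
    have := Algebra.ringChar_eq F K
    rwa [← this]
  constructor
  · intro hN
    by_contra hns
    obtain ⟨a, ha⟩ := FiniteField.exists_nonsquare hF
    obtain ⟨x, hx⟩ := FiniteField.norm_surjective F K a
    have ha0 : a ≠ 0 := by
      rintro rfl
      exact ha (IsSquare.zero)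
    have hx0 : x ≠ 0 := by
      rintro rfl
      rw [Algebra.norm_zero] at hx
      exact ha0 hx.symm
    -- x or x * γ is a square
    have hsq : IsSquare x ∨ IsSquare (x * γ) := by
      by_cases h : IsSquare x
      · exact Or.inl h
      · right
        rw [FiniteField.isSquare_iff hK (mul_ne_zero hx0 hγ), mul_pow]
        have h1 := FiniteField.pow_dichotomy hK hx0
        have h2 := FiniteField.pow_dichotomy hK hγ
        rw [FiniteField.isSquare_iff hK hx0] at h
        rw [FiniteField.isSquare_iff hK hγ] at hns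
        rw [h1.resolve_left h, h2.resolve_left hns]
        norm_num
    rcases hsq with ⟨y, hy⟩ | ⟨y, hy⟩
    · apply ha
      rw [← hx, hy, map_mul]
      exact ⟨_, rfl⟩
    · apply ha
      obtain ⟨n, hn⟩ := hN
      have hn0 : n ≠ 0 := by
        rintro rfl
        rw [mul_zero] at hn
        exact hγ ((Algebra.norm_eq_zero_iff).mp hn)
      have h3 : a * (n * n) = Algebra.norm F y * Algebra.norm F y := by
        rw [← hx, ← hn, ← map_mul, ← map_mul, hy]
      refine ⟨Algebra.norm F y * n⁻¹, ?_⟩
      field_simp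
      rw [pow_two, pow_two]
      exact h3
  · rintro ⟨y, rfl⟩
    rw [map_mul]
    exact ⟨_, rfl⟩

theorem DD : DD_stmt := by
  intro F K ι _ _ _ _ _ _ _ β hF α hα
  have h1 := DD_one (F := F) (K := K) β
  have hd := DD_dt β α
  have hN : Algebra.norm F α⁻¹ ≠ 0 := by
    intro h
    exact inv_ne_zero hα ((Algebra.norm_eq_zero_iff).mp h)
  refine ⟨?_, ?_⟩
  · rw [hd]; exact mul_ne_zero hN h1
  · have e1 : IsSquare (dt (bf F K α) β * dt (bf F K 1) β) ↔ IsSquare (Algebra.norm F α⁻¹) := by
      rw [hd]
      constructor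
      · rintro ⟨y, hy⟩
        refine ⟨y * (dt (bf F K 1) β)⁻¹, ?_⟩
        field_simp
        rw [pow_two, pow_two, ← hy]
        ring_nf
      · rintro ⟨y, hy⟩
        rw [hy]
        exact ⟨y * dt (bf F K 1) β, by ring⟩
    rw [e1, DD_sq hF _ (inv_ne_zero hα)]
    exact isSquare_inv

end Pool.Agent.GS
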