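import Pool.Agent.helper22.GS.Spec

set_option autoImplicit false

namespace Pool.Agent.GS

open Module

/-- the bilinear form `u, v ↦ B (y u) v` for linear `y` -/
noncomputable def LE_b {F V : Type} [Field F] [AddCommGroup V] [Module F V]
    (B : LinearMap.BilinForm F V) (y : Equiv.Perm V) (ν : F) (hy : Sim B y (RingEquiv.refl F) ν) :
    LinearMap.BilinForm F V :=
  LinearMap.mk₂ F (fun u v => B (y u) v)
    (fun u u' v => by rw [hy.add, map_add, LinearMap.add_apply])
    (fun c u v => by rw [hy.smul, map_smul, LinearMap.smul_apply]; rfl)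
    (fun u v v' => by rw [map_add])
    (fun c u v => by rw [map_smul])

theorem LE_b_apply {F V : Type} [Field F] [AddCommGroup V] [Module F V]
    (B : LinearMap.BilinForm F V) (y : Equiv.Perm V) (ν : F) (hy : Sim B y (RingEquiv.refl F) ν)
    (u v : V) : LE_b B y ν hy u v = B (y u) v := rfl

theorem LE_zero {F V : Type} [Field F] [AddCommGroup V] [Module F V]
    {B : LinearMap.BilinForm F V} {y : Equiv.Perm V} {ψ : F ≃+* F} {ν : F} (hy : Sim B y ψ ν) :
    y 0 = 0 := by
  have h := hy.add 0 0
  rw [add_zero] at h
  exact left_eq_add.mp h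

theorem LE (hCW : CW_stmt) : LE_stmt := by
  intro F V _ _ _ _ _ B hB h3 y ν hy hev
  have : Finite V := Module.finite_of_finite F
  have hsm : ∀ (c : F) (v : V), y (c • v) = c • y v := fun c v => hy.smul c v
  have y0 : y 0 = 0 := LE_zero hy
  have yne : ∀ v, v ≠ 0 → y v ≠ 0 := by
    intro v hv h
    exact hv (y.injective (h.trans y0.symm))
  -- eigenvectors with different eigenvalues are not orthogonal
  have key : ∀ (a c : F) (u u' : V), a ≠ c → u ≠ 0 → u' ≠ 0 → y u = a • u → y u' = c • u' →
      B u u' ≠ 0 := by
    intro a c u u' hac hu hu' h1 h2 h0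
    have h0' : B u' u = 0 := by rw [hB.neg, h0, neg_zero]
    have hf : B (y (u + u')) (u + u') = 0 := by
      rw [hy.add, h1, h2]
      simp only [map_add, LinearMap.add_apply, map_smul, LinearMap.smul_apply, smul_eq_mul,
        hB.alt, h0, h0', mul_zero, add_zero]
    obtain ⟨e, he⟩ := hev _ hf
    rw [hy.add, h1, h2, smul_add] at he
    -- (a - e) u = (e - c) u'
    have h4 : (a - e) • u = (e - c) • u' := by
      rw [sub_smul, sub_smul]
      rw [sub_eq_sub_iff_add_eq_add]
      rw [he]; abel
    by_cases hae : a = e
    · have : (e - c) • u' = 0 := by rw [← h4, hae, sub_self, zero_smul]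
      rcases smul_eq_zero.mp this with h | h
      · exact hac (hae.trans (sub_eq_zero.mp h))
      · exact hu' h
    · -- u = k u'
      have hk : u = ((a - e)⁻¹ * (e - c)) • u' := by
        rw [mul_smul, ← h4, smul_smul, inv_mul_cancel₀ (sub_ne_zero.mpr hae), one_smul]
      have h5 : y u = c • u := by
        rw [hk, hsm, h2, smul_comm]
      rw [h1] at h5
      have h6 : (a - c) • u = 0 := by rw [sub_smul, h5, sub_self]
      rcases smul_eq_zero.mp h6 with h | h
      · exact hac (sub_eq_zero.mp h)
      · exact hu h
  obtain ⟨⟨w, hw0, hw⟩, hdvd⟩ := hCW (LE_b B y ν hy) h3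
  rw [LE_b_apply] at hw
  obtain ⟨lam, hlam⟩ := hev w hw
  have hlam0 : lam ≠ 0 := by
    rintro rfl
    rw [zero_smul] at hlam
    exact yne w hw0 hlam
  -- uniqueness
  have huniq : ∀ (c : F) (u : V), u ≠ 0 → y u = c • u → c = lam := by
    intro c u hu hcu
    by_contra hne
    have hBu : B u w ≠ 0 := key c lam u w hne hu hw0 hcu hlam
    -- all zeros of f are in F u ∪ F w
    have eig : ∀ (a : F) (v v' : V), v ≠ 0 → v' ≠ 0 → y v = a • v → y v' = a • v' →
        ∀ (c' : F) (z : V), c' ≠ a → z ≠ 0 → y z = c' • z → ∃ k : F, v' = k • v := by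
      intro a v v' hv hv' h1 h2 c' z hc' hz hz'
      have hvz : B v z ≠ 0 := key a c' v z hc'.symm hv hz h1 hz'
      have hv'z : B v' z ≠ 0 := key a c' v' z hc'.symm hv' hz h2 hz'
      by_contra hcon
      push Not at hcon
      have hs : v' - (B v' z * (B v z)⁻¹) • v ≠ 0 := sub_ne_zero.mpr (hcon _)
      have hs' : y (v' - (B v' z * (B v z)⁻¹) • v) = a • (v' - (B v' z * (B v z)⁻¹) • v) := by
        rw [sub_eq_add_neg, ← neg_smul, hy.add, hsm, h1, h2, smul_add, smul_comm]
      refine key a c' _ z hc'.symm hs hz hs' hz' ?_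
      rw [map_sub, LinearMap.sub_apply, map_smul, LinearMap.smul_apply, smul_eq_mul, mul_assoc,
        inv_mul_cancel₀ hvz, mul_one, sub_self]
    -- product of eigenvalues
    have hprod : ∀ (a c' : F) (v z : V), a ≠ c' → v ≠ 0 → z ≠ 0 → y v = a • v → y z = c' • z →
        a * c' = ν := by
      intro a c' v z hac hv hz h1 h2
      have h := hy.form v z
      have hr : (RingEquiv.refl F) (B v z) = B v z := rfl
      rw [hr, h1, h2] at h
      simp only [map_smul, LinearMap.smul_apply, smul_eq_mul] at h
      have h' : (a * c') * B v z = ν * B v z := by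
        rw [← h]; ring
      exact mul_right_cancel₀ (key a c' v z hac hv hz h1 h2) h'
    have hall : ∀ v : V, B (y v) v = 0 ↔ (∃ k : F, v = k • u) ∨ ∃ k : F, v = k • w := by
      intro v
      constructor
      · intro hv
        by_cases hv0 : v = 0
        · left; exact ⟨0, by rw [hv0, zero_smul]⟩
        obtain ⟨e, he⟩ := hev v hv
        by_cases h1 : e = c
        · left
          subst h1
          exact eig e u v hu hv0 hcu he lam w (Ne.symm hne) hw0 hlam
        · by_cases h2 : e = lam
          · right
            subst h2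
            exact eig e w v hw0 hv0 hlam he c u hne hu hcu
          · exfalso
            have e1 := hprod e c v u h1 hv0 hu he hcu
            have e2 := hprod e lam v w h2 hv0 hw0 he hlam
            have he0 : e ≠ 0 := by
              rintro rfl
              rw [zero_smul] at he
              exact yne v hv0 he
            exact hne (mul_left_cancel₀ he0 (e1.trans e2.symm))
      · rintro (⟨k, rfl⟩ | ⟨k, rfl⟩)
        · rw [hsm, hcu]
          simp only [map_smul, LinearMap.smul_apply, hB.alt, smul_zero]
        · rw [hsm, hlam]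
          simp only [map_smul, LinearMap.smul_apply, hB.alt, smul_zero]
    -- count
    have hindep : ∀ k k' : F, k • u = k' • w → k = 0 ∧ k' = 0 := by
      intro k k' h
      have h1 : k = 0 := by
        have : B (k • u) w = 0 := by rw [h, map_smul, LinearMap.smul_apply, hB.alt, smul_zero]
        rw [map_smul, LinearMap.smul_apply, smul_eq_mul] at this
        exact (mul_eq_zero.mp this).resolve_right hBu
      refine ⟨h1, ?_⟩
      rw [h1, zero_smul] at h
      exact (smul_eq_zero.mp h.symm).resolve_right hw0
    let _ : Fintype F := Fintype.ofFinite F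
    classical
    -- equivalence  F ⊕ {k // k ≠ 0} ≃ Z
    let g : F ⊕ {k : F // k ≠ 0} → {v : V // LE_b B y ν hy v v = 0} := fun t =>
      match t with
      | .inl k => ⟨k • u, by rw [LE_b_apply]; exact (hall _).mpr (Or.inl ⟨k, rfl⟩)⟩
      | .inr k => ⟨(k : F) • w, by rw [LE_b_apply]; exact (hall _).mpr (Or.inr ⟨k, rfl⟩)⟩
    have hg : Function.Bijective g := by
      constructor
      · rintro (k | k) (k' | k') h
        · have h' : k • u = k' • u := congrArg Subtype.val h
          rw [smul_left_injective F hu h']
        · have h' : k • u = (k' : F) • w := congrArg Subtype.val h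
          exact absurd (hindep _ _ h').2 k'.2
        · have h' : (k : F) • w = k' • u := congrArg Subtype.val h
          exact absurd (hindep _ _ h'.symm).2 k.2
        · have h' : (k : F) • w = (k' : F) • w := congrArg Subtype.val h
          rw [Subtype.ext (smul_left_injective F hw0 h')]
      · rintro ⟨v, hv⟩
        have hv' := hv
        rw [LE_b_apply] at hv'
        rcases (hall v).mp hv' with ⟨k, hk⟩ | ⟨k, hk⟩
        · exact ⟨.inl k, Subtype.ext hk.symm⟩
        · by_cases hk0 : k = 0
          · refine ⟨.inl 0, Subtype.ext ?_⟩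
            change (0 : F) • u = v
            rw [hk, hk0, zero_smul, zero_smul]
          · exact ⟨.inr ⟨k, hk0⟩, Subtype.ext hk.symm⟩
    have hcard : Nat.card {v : V // LE_b B y ν hy v v = 0} =
        Fintype.card F + (Fintype.card F - 1) := by
      rw [← Nat.card_congr (Equiv.ofBijective g hg), Nat.card_eq_fintype_card, Fintype.card_sum]
      congr 1
      rw [Fintype.card_subtype_compl, Fintype.card_subtype_eq]
    rw [hcard] at hdvd
    obtain ⟨p, hp⟩ := CharP.exists F
    have hpr : p.Prime := (CharP.char_is_prime_or_zero F p).resolve_right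
      (CharP.char_ne_zero_of_finite F p)
    have hpc : ringChar F = p := ringChar.eq F p
    rw [hpc] at hdvd
    have hq : p ∣ Fintype.card F := by
      obtain ⟨n, hn, hcn⟩ := FiniteField.card F p
      rw [hcn]
      exact dvd_pow_self p n.pos.ne'
    have h1 : p ∣ Fintype.card F - 1 := (Nat.dvd_add_right hq).mp hdvd
    have hpos : 0 < Fintype.card F := Fintype.card_pos
    have h2 : p ∣ 1 := by
      have := (Nat.dvd_sub hq h1)
      have e : Fintype.card F - (Fintype.card F - 1) = 1 := by omega
      rwa [e] at this
    exact hpr.one_lt.ne' (Nat.dvd_one.mp h2)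
  refine ⟨lam, hlam0, fun v => ⟨fun hv => ?_, fun hv => ?_⟩⟩
  · by_cases hv0 : v = 0
    · rw [hv0, y0, smul_zero]
    obtain ⟨c, hc⟩ := hev v hv
    rw [huniq c v hv0 hc] at hc
    exact hc
  · rw [hv]
    simp only [map_smul, LinearMap.smul_apply, hB.alt, smul_zero]

end Pool.Agent.GS
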