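import Pool.Agent.helper22.GS.Spec

set_option autoImplicit false

namespace Pool.Agent.GS

open Module

theorem MAIN (hPO : PO_stmt) (hMLIN : MLIN_stmt) (hMSEM : MSEM_stmt) : MAIN_stmt := by
  intro F V _ _ _ _ _ B hB n hn hfr y ψ ν hy hns r hr hr2
  obtain ⟨j, l, κ, ψ', ν', hl, hsim, hns', hκ, hpow⟩ := hPO B y ψ ν hy hns
  by_cases hψ : ∃ x, ψ' x ≠ x
  · obtain ⟨h1, h2⟩ := hMSEM B hB n hn hfr (y ^ j) ψ' ν' hsim hψ l κ hl hκ hpow r hr hr2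
    refine ⟨fun h => ?_, fun m hm hd => ?_⟩
    · obtain ⟨z, hz, hg, hs⟩ := h1 h
      exact ⟨z, hz, hg.of_pow j, hs⟩
    · obtain ⟨z, hz, hg, hs⟩ := h2 m hm hd
      exact ⟨z, hz, hg.of_pow j, hs⟩
  · push Not at hψ
    have e : ψ' = RingEquiv.refl F := RingEquiv.ext hψ
    subst e
    obtain ⟨h1, h2⟩ := hMLIN B hB n hn hfr (y ^ j) ν' hsim hns' r hr hr2
    refine ⟨fun h => ?_, fun m hm hd => ?_⟩
    · obtain ⟨z, hz, hg, hs⟩ := h1 h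
      exact ⟨z, hz, hg.of_pow j, hs⟩
    · obtain ⟨z, hz, hg, hs⟩ := h2 m hm hd
      exact ⟨z, hz, hg.of_pow j, hs⟩

end Pool.Agent.GS
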